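import Mathlib
import Pool.Agent.RCD.Lim
import Pool.Agent.RCD.Low
import Pool.Agent.RCD.Expl
import Pool.Agent.RCD.BTwoF

/-!
For the recursive chain cover number `b`: `b w ≥ (5 / 4) * w ^ 2 * (1 - 5 √(2 / w))`; the quotients
`b w / w ^ 2` satisfy `b w / w ^ 2 ≥ (1 - 5 √(v / w)) * (b v / v ^ 2)` and converge to their supremum in
`[0, ∞]`.
-/

namespace Pool.Agent.Results.MP_920410_lc.ChainCoverLimit

open Pool.Agent.RCC (b)
open Filter Topology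
open scoped ENNReal

theorem result :
    (∀ w : ℕ, 1 ≤ w →
      ENNReal.ofReal (5 / 4 * (w : ℝ) ^ 2 * (1 - 5 * √(2 / w))) ≤ (b w : ℝ≥0∞)) ∧
    (∀ v w : ℕ, 1 ≤ v → 1 ≤ w → ENNReal.ofReal (1 - 5 * √((v : ℝ) / w)) *
      ((b v : ℝ≥0∞) / (v : ℝ≥0∞) ^ 2) ≤ (b w : ℝ≥0∞) / (w : ℝ≥0∞) ^ 2) ∧
    Tendsto (fun w : ℕ => (b w : ℝ≥0∞) / (w : ℝ≥0∞) ^ 2) atTop
      (𝓝 (⨆ (v : ℕ) (_ : 1 ≤ v), (b v : ℝ≥0∞) / (v : ℝ≥0∞) ^ 2)) := by
  refine ⟨Pool.Agent.RCD.record, fun v w hv hw => Pool.Agent.RCD.q_expl v w hv hw, ?_⟩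
  · have h1 := Pool.Agent.RCD.tendsto_q
    have h2 : (⨆ v, Pool.Agent.RCD.q v) =
        ⨆ (v : ℕ) (_ : 1 ≤ v), (b v : ℝ≥0∞) / (v : ℝ≥0∞) ^ 2 := by
      refine le_antisymm (iSup_le fun v => ?_) (iSup_le fun v => iSup_le fun _ =>
        le_iSup Pool.Agent.RCD.q v)
      rcases Nat.eq_zero_or_pos v with rfl | hv
      · have h3 : Pool.Agent.RCC.Cov 0 0 := by
          intro P r hP hw
          refine ⟨fun i => i.elim0, fun i => i.elim0, fun x hx => ?_⟩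
          have := hw.2 {x} ⟨by simpa using hx, by simp⟩
          simp at this
        have h4 : b 0 = 0 := by
          refine le_antisymm ?_ bot_le
          have := Pool.Agent.RCC.b_le h3
          rwa [Nat.cast_zero] at this
        rw [Pool.Agent.RCD.q, h4, ENat.toENNReal_zero, ENNReal.zero_div]
        exact bot_le
      · exact le_iSup₂ (f := fun (v : ℕ) (_ : 1 ≤ v) => (b v : ℝ≥0∞) / (v : ℝ≥0∞) ^ 2) v hv
    rw [← h2]
    exact h1

end Pool.Agent.Results.MP_920410_lc.ChainCoverLimit
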