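import Mathlib
import Pool.Agent.RCD.Fin2
import Pool.Agent.RCD.BTwo

/-!
The product inequality `b (u * v) ≥ F u * b v` for the recursive chain cover number `b`, with
`F u = ∑ j ∈ {1, ..., u}, max j (2 j - 2 ⌊√j⌋ - 2) ≥ u (u + 1) / 2`; with `b 2 ≥ 5` it bounds
`b (2 u)` from below.
-/

set_option autoImplicit false

namespace Pool.Agent.Results.MP_920410_lc.ProductInequality

open Pool.Agent.RCC (b)

/-- `F u` is the sum of `max j (2 j - 2 ⌊√j⌋ - 2)` over `1 ≤ j ≤ u`. -/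
def F (u : ℕ) : ℕ := ∑ j ∈ Finset.Icc 1 u, max j (2 * j - (2 * Nat.sqrt j + 2))

theorem F_eq (u : ℕ) : F u = Pool.Agent.RCD.F u := by
  induction u with
  | zero => simp [F, Pool.Agent.RCD.F]
  | succ u ih =>
    rw [F, Finset.sum_Icc_succ_top (by omega), ← F, ih, Pool.Agent.RCD.F, Pool.Agent.RCD.rho,
      add_comm]

theorem result :
    (∀ u v : ℕ, 1 ≤ u → ((F u : ℕ) : ℕ∞) * b v ≤ b (u * v)) ∧
    (∀ u : ℕ, u * (u + 1) / 2 ≤ F u) ∧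
    (∀ u : ℕ, 1 ≤ u → ((5 * (u * (u + 1) / 2) : ℕ) : ℕ∞) ≤ b (2 * u)) := by
  have h1 : ∀ u v : ℕ, 1 ≤ u → ((F u : ℕ) : ℕ∞) * b v ≤ b (u * v) := fun u v hu => by
    rw [F_eq]
    exact Pool.Agent.RCD.b_mul2 u v hu
  have h2 : ∀ u : ℕ, u * (u + 1) / 2 ≤ F u := fun u => by
    rw [F_eq]
    exact Pool.Agent.RCD.F_tri u
  refine ⟨h1, h2, fun u hu => ?_⟩
  have h3 := h1 u 2 hu
  rw [mul_comm u 2] at h3
  refine le_trans ?_ h3
  have h4 : ((5 : ℕ) : ℕ∞) ≤ b 2 := by exact_mod_cast Pool.Agent.RCD.five_le_b_two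
  calc ((5 * (u * (u + 1) / 2) : ℕ) : ℕ∞) ≤ ((F u * 5 : ℕ) : ℕ∞) := by
        exact_mod_cast (mul_comm _ _).trans_le (Nat.mul_le_mul_right 5 (h2 u))
    _ = ((F u : ℕ) : ℕ∞) * ((5 : ℕ) : ℕ∞) := by push_cast; rfl
    _ ≤ ((F u : ℕ) : ℕ∞) * b 2 := by gcongr

end Pool.Agent.Results.MP_920410_lc.ProductInequality
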